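import Pool.Agent.helper36.LT.Structs

set_option autoImplicit false

/-!
# Calculus of galleries, the universal covering of a chamber system
-/

namespace Pool.Agent.helper66.LT

open Pool.Agent.helper34 Pool.Agent.helper36.LT

variable {S B : Type}

@[simp] theorem fin_nil (b : B) : fin (S := S) b [] = b := rfl

@[simp] theorem fin_cons (b : B) (x : Set S × B) (l : List (Set S × B)) :
    fin b (x :: l) = fin x.2 l := rfl

@[simp] theorem fin_append (b : B) (l m : List (Set S × B)) :
    fin b (l ++ m) = fin (fin b l) m := by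
  induction l generalizing b with
  | nil => rfl
  | cons x l ih => exact ih x.2

@[simp] theorem isGal_nil (X : Sys S B) (b : B) : IsGal X b [] ↔ True := Iff.rfl

@[simp] theorem isGal_cons (X : Sys S B) (b : B) (x : Set S × B) (l : List (Set S × B)) :
    IsGal X b (x :: l) ↔ IsTy x.1 ∧ X.r x.1 b x.2 ∧ IsGal X x.2 l := Iff.rfl

@[simp] theorem isGal_append (X : Sys S B) (b : B) (l m : List (Set S × B)) :
    IsGal X b (l ++ m) ↔ IsGal X b l ∧ IsGal X (fin b l) m := by
  induction l generalizing b with
  | nil => simp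
  | cons x l ih => simp [ih, and_assoc]

/-- the image of a gallery -/
def gmap {C : Type} (i : B → C) (l : List (Set S × B)) : List (Set S × C) :=
  l.map (fun x => (x.1, i x.2))

section gmap

variable {C D : Type} (i : B → C)

@[simp] theorem gmap_nil : gmap (S := S) i [] = [] := rfl

@[simp] theorem gmap_cons (x : Set S × B) (l : List (Set S × B)) :
    gmap i (x :: l) = (x.1, i x.2) :: gmap i l := rfl

@[simp] theorem gmap_append (l m : List (Set S × B)) :
    gmap i (l ++ m) = gmap i l ++ gmap i m := by simp [gmap]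

theorem gmap_gmap (j : C → D) (l : List (Set S × B)) :
    gmap j (gmap i l) = gmap (fun b => j (i b)) l := by simp [gmap]

@[simp] theorem gmap_id (l : List (Set S × B)) : gmap (fun b => b) l = l := by simp [gmap]

@[simp] theorem fin_gmap (b : B) (l : List (Set S × B)) : fin (i b) (gmap i l) = i (fin b l) := by
  induction l generalizing b with
  | nil => rfl
  | cons x l ih => exact ih x.2

theorem gmap_isGal {X : Sys S B} {Y : Sys S C} (hi : ∀ T b c, IsTy T → X.r T b c → Y.r T (i b) (i c))
    {b : B} {l : List (Set S × B)} (h : IsGal X b l) : IsGal Y (i b) (gmap i l) := by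
  induction l generalizing b with
  | nil => trivial
  | cons x l ih => exact ⟨h.1, hi _ _ _ h.1 h.2.1, ih h.2.2⟩

theorem gmap_hom {X : Sys S B} {Y : Sys S C} (hi : ∀ T b c, IsTy T → X.r T b c → Y.r T (i b) (i c))
    {b : B} {l m : List (Set S × B)} (h : Hom X b l m) : Hom Y (i b) (gmap i l) (gmap i m) := by
  induction h with
  | refl => exact Hom.refl _ _
  | symm _ _ _ _ ih => exact Hom.symm _ _ _ ih
  | trans _ _ _ _ _ _ ih1 ih2 => exact Hom.trans _ _ _ _ ih1 ih2
  | cons _ _ _ _ _ ih => exact Hom.cons _ _ _ _ ih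
  | triv b T l h => exact Hom.triv _ _ _ h
  | comp b c d T l h h1 h2 => exact Hom.comp _ _ _ _ _ h (hi _ _ _ h h1) (hi _ _ _ h h2)
  | sub b c T T' l h h' hs h1 => exact Hom.sub _ _ _ _ _ h h' hs (hi _ _ _ h h1)

end gmap

variable {X : Sys S B}

theorem hom_mono {Y : Sys S B} (hi : ∀ T b c, IsTy T → X.r T b c → Y.r T b c) {b : B}
    {l m : List (Set S × B)} (h : Hom X b l m) : Hom Y b l m := by
  have := gmap_hom (fun b => b) hi h
  simpa using this

theorem isGal_mono {Y : Sys S B} (hi : ∀ T b c, IsTy T → X.r T b c → Y.r T b c) {b : B}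
    {l : List (Set S × B)} (h : IsGal X b l) : IsGal Y b l := by
  have := gmap_isGal (fun b => b) hi h
  simpa using this

theorem hom_fin_eq {b : B} {l m : List (Set S × B)} (h : Hom X b l m) : fin b l = fin b m := by
  induction h with
  | refl => rfl
  | symm _ _ _ _ ih => exact ih.symm
  | trans _ _ _ _ _ _ ih1 ih2 => exact ih1.trans ih2
  | cons _ _ _ _ _ ih => exact ih
  | triv b T l h => rfl
  | comp b c d T l h h1 h2 => rfl
  | sub b c T T' l h h' hs h1 => rfl

theorem hom_isGal_iff {b : B} {l m : List (Set S × B)} (h : Hom X b l m) :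
    IsGal X b l ↔ IsGal X b m := by
  induction h with
  | refl => rfl
  | symm _ _ _ _ ih => exact ih.symm
  | trans _ _ _ _ _ _ ih1 ih2 => exact ih1.trans ih2
  | cons _ _ _ _ _ ih => simp [ih]
  | triv b T l h => simp [h, X.refl _ _ h]
  | comp b c d T l h h1 h2 => simp [h, h1, h2, X.trans _ _ _ _ h h1 h2]
  | sub b c T T' l h h' hs h1 => simp [h, h', h1, X.mono _ _ _ _ hs h h' h1]

theorem hom_append_right {b : B} {l m : List (Set S × B)} (h : Hom X b l m)
    (n : List (Set S × B)) : Hom X b (l ++ n) (m ++ n) := by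
  induction h with
  | refl => exact Hom.refl _ _
  | symm _ _ _ _ ih => exact Hom.symm _ _ _ ih
  | trans _ _ _ _ _ _ ih1 ih2 => exact Hom.trans _ _ _ _ ih1 ih2
  | cons _ _ _ _ _ ih => exact Hom.cons _ _ _ _ ih
  | triv b T l h => exact Hom.triv _ _ _ h
  | comp b c d T l h h1 h2 => exact Hom.comp _ _ _ _ _ h h1 h2
  | sub b c T T' l h h' hs h1 => exact Hom.sub _ _ _ _ _ h h' hs h1

theorem hom_append_left {b : B} (l : List (Set S × B)) {m n : List (Set S × B)}
    (h : Hom X (fin b l) m n) : Hom X b (l ++ m) (l ++ n) := by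
  induction l generalizing b with
  | nil => exact h
  | cons x l ih => exact Hom.cons _ _ _ _ (ih h)

/-- the reversed gallery -/
def grev : B → List (Set S × B) → List (Set S × B)
  | _, [] => []
  | b, x :: l => grev x.2 l ++ [(x.1, b)]

@[simp] theorem grev_nil (b : B) : grev (S := S) b [] = [] := rfl

@[simp] theorem grev_cons (b : B) (x : Set S × B) (l : List (Set S × B)) :
    grev b (x :: l) = grev x.2 l ++ [(x.1, b)] := rfl

@[simp] theorem fin_grev (b : B) (l : List (Set S × B)) : fin (fin b l) (grev b l) = b := by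
  induction l generalizing b with
  | nil => rfl
  | cons x l ih => simp

theorem isGal_grev (X : Sys S B) (b : B) (l : List (Set S × B)) (h : IsGal X b l) :
    IsGal X (fin b l) (grev b l) := by
  induction l generalizing b with
  | nil => trivial
  | cons x l ih =>
    obtain ⟨h1, h2, h3⟩ := h
    simp only [fin_cons, grev_cons, isGal_append, isGal_cons, isGal_nil, and_true, fin_grev]
    exact ⟨ih _ h3, h1, X.symm _ _ _ h1 h2⟩

theorem hom_grev (X : Sys S B) (b : B) (l : List (Set S × B)) (h : IsGal X b l) :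
    Hom X b (l ++ grev b l) [] := by
  induction l generalizing b with
  | nil => exact Hom.refl _ _
  | cons x l ih =>
    obtain ⟨h1, h2, h3⟩ := h
    have h4 := hom_append_right (ih _ h3) [(x.1, b)]
    simp only [List.append_assoc, List.nil_append] at h4
    refine Hom.trans _ _ _ _ (Hom.cons _ _ _ _ h4) ?_
    refine Hom.trans _ _ _ _ (Hom.comp _ _ _ _ _ h1 h2 (X.symm _ _ _ h1 h2)) ?_
    exact Hom.triv _ _ _ h1

theorem hom_grev' (X : Sys S B) (b : B) (l : List (Set S × B)) (h : IsGal X b l) :
    Hom X (fin b l) (grev b l ++ l) [] := by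
  induction l generalizing b with
  | nil => exact Hom.refl _ _
  | cons x l ih =>
    obtain ⟨h1, h2, h3⟩ := h
    refine Hom.trans _ _ _ _ ?_ (ih _ h3)
    simp only [fin_cons, grev_cons, List.append_assoc, List.cons_append, List.nil_append]
    apply hom_append_left
    rw [fin_grev]
    exact Hom.trans _ _ _ _ (Hom.comp _ _ _ _ _ h1 (X.symm _ _ _ h1 h2) h2) (Hom.triv _ _ _ h1)

theorem hom_cancel_left {b : B} (l : List (Set S × B)) (hl : IsGal X b l)
    {m n : List (Set S × B)} (h : Hom X b (l ++ m) (l ++ n)) : Hom X (fin b l) m n := by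
  have h1 : ∀ m, Hom X (fin b l) (grev b l ++ (l ++ m)) m := fun m => by
    have := hom_append_right (hom_grev' X b l hl) m
    simpa using this
  have h2 : Hom X (fin b l) (grev b l ++ (l ++ m)) (grev b l ++ (l ++ n)) := by
    apply hom_append_left
    rw [fin_grev]
    exact h
  exact Hom.trans _ _ _ _ (Hom.symm _ _ _ (h1 m)) (Hom.trans _ _ _ _ h2 (h1 n))

theorem hom_cancel_right {b : B} {l m : List (Set S × B)} (n : List (Set S × B))
    (hlm : fin b l = fin b m) (hn : IsGal X (fin b l) n)
    (h : Hom X b (l ++ n) (m ++ n)) : Hom X b l m := by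
  have h1 : ∀ k, fin b k = fin b l → Hom X b (k ++ n ++ grev (fin b l) n) k := fun k hk => by
    have h2 := hom_grev X (fin b l) n hn
    rw [← hk] at h2
    have h3 := hom_append_left k h2
    rw [hk] at h3
    simpa using h3
  exact Hom.trans _ _ _ _ (Hom.symm _ _ _ (h1 l rfl))
    (Hom.trans _ _ _ _ (hom_append_right h _) (h1 m hlm.symm))

/-! ## homotopy classes -/

/-- homotopy of lists relative to the base chamber -/
def hSetoid (A : Sys S B) (x : B) : Setoid (List (Set S × B)) where
  r := Hom A x
  iseqv := ⟨Hom.refl x, fun h => Hom.symm _ _ _ h, fun h1 h2 => Hom.trans _ _ _ _ h1 h2⟩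

/-- homotopy classes of lists -/
def PClass (A : Sys S B) (x : B) : Type := Quotient (hSetoid A x)

namespace PClass

variable {A : Sys S B} {x : B}

/-- the class of a list -/
def mk (A : Sys S B) (x : B) (l : List (Set S × B)) : PClass A x := Quotient.mk (hSetoid A x) l

theorem mk_eq {l m : List (Set S × B)} : mk A x l = mk A x m ↔ Hom A x l m :=
  ⟨fun h => Quotient.exact h, fun h => Quotient.sound h⟩

theorem ind {p : PClass A x → Prop} (h : ∀ l, p (mk A x l)) (q : PClass A x) : p q :=
  Quotient.ind h q

/-- the end point -/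
def ep (q : PClass A x) : B :=
  Quotient.lift (s := hSetoid A x) (fin x)
    (fun l m h => hom_fin_eq (X := A) (show Hom A x l m from h)) q

@[simp] theorem ep_mk (l : List (Set S × B)) : (mk A x l).ep = fin x l := rfl

/-- classes of galleries of `A` -/
def valid (q : PClass A x) : Prop :=
  Quotient.lift (s := hSetoid A x) (IsGal A x)
    (fun l m h => propext (hom_isGal_iff (show Hom A x l m from h))) q

@[simp] theorem valid_mk (l : List (Set S × B)) : (mk A x l).valid ↔ IsGal A x l := Iff.rfl

/-- append a list -/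
def app (q : PClass A x) (m : List (Set S × B)) : PClass A x :=
  Quotient.map (sa := hSetoid A x) (sb := hSetoid A x) (· ++ m)
    (fun l l' h => hom_append_right (show Hom A x l l' from h) m) q

@[simp] theorem app_mk (l m : List (Set S × B)) : (mk A x l).app m = mk A x (l ++ m) := rfl

@[simp] theorem app_nil (q : PClass A x) : q.app [] = q := by
  induction q using PClass.ind with
  | h l => simp

@[simp] theorem app_app (q : PClass A x) (m n : List (Set S × B)) :
    (q.app m).app n = q.app (m ++ n) := by
  induction q using PClass.ind with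
  | h l => simp

@[simp] theorem ep_app (q : PClass A x) (m : List (Set S × B)) : (q.app m).ep = fin q.ep m := by
  induction q using PClass.ind with
  | h l => simp

theorem valid_app (q : PClass A x) (m : List (Set S × B)) :
    (q.app m).valid ↔ q.valid ∧ IsGal A q.ep m := by
  induction q using PClass.ind with
  | h l => simp

theorem app_congr (q : PClass A x) {m n : List (Set S × B)} (h : Hom A q.ep m n) :
    q.app m = q.app n := by
  induction q using PClass.ind with
  | h l => exact mk_eq.2 (hom_append_left l h)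

theorem app_cancel (q : PClass A x) (hq : q.valid) {m n : List (Set S × B)}
    (h : q.app m = q.app n) : Hom A q.ep m n := by
  induction q using PClass.ind with
  | h l => exact hom_cancel_left l hq (mk_eq.1 h)

end PClass

/-- the chambers of the universal covering: classes of galleries from the base chamber -/
def Cov (A : Sys S B) (x : B) : Type := {q : PClass A x // q.valid}

namespace Cov

variable {A : Sys S B} {x : B}

/-- the projection to the base -/
def ep (q : Cov A x) : B := q.1.ep

/-- the base chamber -/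
def base (A : Sys S B) (x : B) : Cov A x := ⟨PClass.mk A x [], trivial⟩

@[simp] theorem ep_base : (base A x).ep = x := rfl

/-- `q'` is obtained from `q` by a step of type `T` -/
theorem app_triv (q : Cov A x) (T : Set S) (hT : IsTy T) : q.1.app [(T, q.ep)] = q.1 := by
  conv_rhs => rw [← PClass.app_nil q.1]
  exact PClass.app_congr _ (Hom.triv _ _ _ hT)

theorem step_eq {q r : Cov A x} {T : Set S} (hT : IsTy T) (h : r.1 = q.1.app [(T, r.ep)])
    (h' : q.ep = r.ep) : q = r := by
  apply Subtype.ext
  rw [h, ← h', app_triv q T hT]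

/-- the universal covering -/
def sys (A : Sys S B) (x : B) : Sys S (Cov A x) where
  r T q r := A.r T q.ep r.ep ∧ r.1 = q.1.app [(T, r.ep)]
  refl T q hT := ⟨A.refl _ _ hT, (app_triv q T hT).symm⟩
  symm T q r hT h := by
    refine ⟨A.symm _ _ _ hT h.1, ?_⟩
    rw [h.2, PClass.app_app]
    conv_lhs => rw [← app_triv q T hT]
    exact PClass.app_congr _ (Hom.symm _ _ _ (Hom.comp _ _ _ _ _ hT h.1 (A.symm _ _ _ hT h.1)))
  trans T q r s hT h h' := by
    refine ⟨A.trans _ _ _ _ hT h.1 h'.1, ?_⟩
    rw [h'.2, h.2, PClass.app_app]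
    exact PClass.app_congr _ (Hom.comp _ _ _ _ _ hT h.1 h'.1)
  mono T T' q r hs hT hT' h := by
    refine ⟨A.mono _ _ _ _ hs hT hT' h.1, ?_⟩
    rw [h.2]
    exact PClass.app_congr _ (Hom.sub _ _ _ _ _ hT hT' hs h.1)
  zero q r h := step_eq (Or.inl rfl) h.2 (A.zero _ _ h.1)
  two s t q r hst h h' := step_eq (Or.inr (Or.inl ⟨s, rfl⟩)) h.2 (A.two s t _ _ hst h.1 h'.1)
  four s t a b c d hst h1 h2 h3 h4 := by
    rcases A.four s t _ _ _ _ hst h1.1 h2.1 h3.1 h4.1 with h | h
    · exact Or.inl (step_eq (Or.inr (Or.inl ⟨s, rfl⟩)) h1.2 h)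
    · exact Or.inr (step_eq (Or.inr (Or.inl ⟨t, rfl⟩)) h2.2 h)

theorem ext_ep {q r s : Cov A x} {T : Set S} (h1 : (sys A x).r T q r) (h2 : (sys A x).r T q s)
    (h : r.ep = s.ep) : r = s := by
  apply Subtype.ext
  rw [h1.2, h2.2, h]

/-- existence of lifts -/
theorem exists_lift (q : Cov A x) (m : List (Set S × B)) (hm : IsGal A q.ep m) :
    ∃ M, IsGal (sys A x) q M ∧ gmap ep M = m ∧ (fin q M).1 = q.1.app m := by
  induction m generalizing q with
  | nil => exact ⟨[], trivial, rfl, by simp⟩
  | cons y m ih =>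
    obtain ⟨h1, h2, h3⟩ := hm
    let r : Cov A x := ⟨q.1.app [y], (PClass.valid_app _ _).2 ⟨q.2, h1, h2, trivial⟩⟩
    have hr : r.ep = y.2 := by
      change (q.1.app [y]).ep = _
      simp
    obtain ⟨M, h4, h5, h6⟩ := ih r (by rw [hr]; exact h3)
    refine ⟨(y.1, r) :: M, ⟨h1, ⟨by rw [hr]; exact h2, by rw [hr]⟩, h4⟩, ?_, ?_⟩
    · simp [h5, hr]
    · rw [fin_cons, h6]
      change (q.1.app [y]).app m = _
      simp

/-- uniqueness of lifts -/
theorem lift_unique (q : Cov A x) (L M : List (Set S × Cov A x)) (hL : IsGal (sys A x) q L)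
    (hM : IsGal (sys A x) q M) (h : gmap ep L = gmap ep M) : L = M := by
  induction L generalizing q M with
  | nil =>
    cases M with
    | nil => rfl
    | cons y M => simp at h
  | cons y L ih =>
    cases M with
    | nil => simp at h
    | cons z M =>
      obtain ⟨h1, h2, h3⟩ := hL
      obtain ⟨h4, h5, h6⟩ := hM
      simp only [gmap_cons, List.cons.injEq, Prod.mk.injEq] at h
      obtain ⟨⟨h7, h8⟩, h9⟩ := h
      have h10 : y.2 = z.2 := by
        rw [← h7] at h5
        exact ext_ep h2 h5 h8
      have h11 : y = z := Prod.ext h7 h10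
      subst h11
      rw [ih y.2 M h3 h6 h9]

theorem gmap_ep_isGal {q : Cov A x} {L : List (Set S × Cov A x)} (hL : IsGal (sys A x) q L) :
    IsGal A q.ep (gmap ep L) := gmap_isGal (X := sys A x) (Y := A) ep (fun _ _ _ _ h => h.1) hL

theorem hom_lift {a : B} {l m : List (Set S × B)} (h : Hom A a l m) (q : Cov A x) (hq : q.ep = a)
    (L M : List (Set S × Cov A x)) (hL : IsGal (sys A x) q L) (hM : IsGal (sys A x) q M)
    (hl : gmap ep L = l) (hm : gmap ep M = m) : Hom (sys A x) q L M := by
  induction h generalizing q L M with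
  | refl b l =>
    rw [lift_unique q L M hL hM (hl.trans hm.symm)]
    exact Hom.refl _ _
  | symm _ _ _ _ ih => exact Hom.symm _ _ _ (ih q hq M L hM hL hm hl)
  | trans b l m n h1 h2 ih1 ih2 =>
    subst hq
    have h3 : IsGal A q.ep m := (hom_isGal_iff h1).1 (hl ▸ gmap_ep_isGal hL)
    obtain ⟨K, hK, hK', _⟩ := exists_lift q m h3
    exact Hom.trans _ _ _ _ (ih1 q rfl L K hL hK hl hK') (ih2 q rfl K M hK hM hK' hm)
  | cons b y l m h ih =>
    cases L with
    | nil => simp at hl
    | cons z L =>
      cases M with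
      | nil => simp at hm
      | cons w M =>
        obtain ⟨h1, h2, h3⟩ := hL
        obtain ⟨h4, h5, h6⟩ := hM
        simp only [gmap_cons, List.cons.injEq] at hl hm
        have h7 : z.1 = w.1 := (congrArg Prod.fst hl.1).trans (congrArg Prod.fst hm.1).symm
        have h8 : z.2.ep = w.2.ep := (congrArg Prod.snd hl.1).trans (congrArg Prod.snd hm.1).symm
        have h9 : z.2 = w.2 := by
          rw [← h7] at h5
          exact ext_ep h2 h5 h8
        have h10 : z = w := Prod.ext h7 h9
        subst h10
        exact Hom.cons _ _ _ _ (ih z.2 (congrArg Prod.snd hl.1) L M h3 h6 hl.2 hm.2)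
  | triv b T l hT =>
    cases L with
    | nil => simp at hl
    | cons z L =>
      obtain ⟨h1, h2, h3⟩ := hL
      simp only [gmap_cons, List.cons.injEq, Prod.mk.injEq] at hl
      obtain ⟨⟨h7, h8⟩, h9⟩ := hl
      have h10 : q = z.2 := step_eq h1 h2.2 (hq.trans h8.symm)
      have h11 : z = (T, q) := Prod.ext h7 h10.symm
      subst h11
      rw [lift_unique q L M h3 hM (h9.trans hm.symm)]
      exact Hom.triv _ _ _ h1
  | comp b c d T l hT h1 h2 =>
    cases L with
    | nil => simp at hl
    | cons z L =>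
      cases L with
      | nil => simp at hl
      | cons w L =>
        cases M with
        | nil => simp at hm
        | cons v M =>
          obtain ⟨h3, h4, h5, h6, h7⟩ := hL
          obtain ⟨h8, h9, h10⟩ := hM
          simp only [gmap_cons, List.cons.injEq, Prod.mk.injEq] at hl hm
          obtain ⟨⟨e1, e2⟩, ⟨e3, e4⟩, e5⟩ := hl
          obtain ⟨⟨e6, e7⟩, e8⟩ := hm
          obtain ⟨zT, z⟩ := z
          obtain ⟨wT, w⟩ := w
          obtain ⟨vT, v⟩ := v
          simp only at e1 e2 e3 e4 e6 e7 h3 h4 h5 h6 h7 h8 h9 h10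
          subst e1 e3 e6
          have h11 : w = v := ext_ep ((sys A x).trans _ _ _ _ h3 h4 h6) h9 (e4.trans e7.symm)
          subst h11
          rw [lift_unique w L M h7 h10 (e5.trans e8.symm)]
          exact Hom.comp _ _ _ _ _ h3 h4 h6
  | sub b c T T' l hT hT' hs h1 =>
    cases L with
    | nil => simp at hl
    | cons z L =>
      cases M with
      | nil => simp at hm
      | cons v M =>
        obtain ⟨h3, h4, h5⟩ := hL
        obtain ⟨h8, h9, h10⟩ := hM
        simp only [gmap_cons, List.cons.injEq, Prod.mk.injEq] at hl hm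
        obtain ⟨⟨e1, e2⟩, e5⟩ := hl
        obtain ⟨⟨e6, e7⟩, e8⟩ := hm
        obtain ⟨zT, z⟩ := z
        obtain ⟨vT, v⟩ := v
        simp only at e1 e2 e6 e7 h3 h4 h5 h8 h9 h10
        subst e1 e6
        have h11 : z = v :=
          ext_ep ((sys A x).mono _ _ _ _ hs h3 h8 h4) h9 (e2.trans e7.symm)
        subst h11
        rw [lift_unique z L M h5 h10 (e5.trans e8.symm)]
        exact Hom.sub _ _ _ _ _ h3 h8 hs h4

theorem sc (A : Sys S B) (x : B) : (sys A x).SC := by
  have key : ∀ q : Cov A x, ∃ L, IsGal (sys A x) (base A x) L ∧ fin (base A x) L = q := by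
    rintro ⟨q, hq⟩
    induction q using PClass.ind with
    | h l =>
      have hq' : IsGal A (base A x).ep l := hq
      obtain ⟨L, h1, h2, h3⟩ := exists_lift (base A x) l hq'
      exact ⟨L, h1, Subtype.ext h3⟩
  refine ⟨⟨base A x⟩, ?_, ?_⟩
  · intro q r
    obtain ⟨L, hL, hL'⟩ := key q
    obtain ⟨M, hM, hM'⟩ := key r
    refine ⟨grev (base A x) L ++ M, ?_, ?_⟩
    · rw [isGal_append]
      constructor
      · rw [← hL']
        exact isGal_grev _ _ _ hL
      · rw [← hL', fin_grev]
        exact hM
    · rw [fin_append, ← hL', fin_grev]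
      exact hM'
  · intro q L hL hq
    obtain ⟨M, h1, h2, h3⟩ := exists_lift q (gmap ep L) (gmap_ep_isGal hL)
    have h4 : L = M := lift_unique q L M hL h1 h2.symm
    subst h4
    have h5 : q.1.app (gmap ep L) = q.1.app [] := by
      rw [← h3, hq, PClass.app_nil]
    have h6 := PClass.app_cancel _ q.2 h5
    exact hom_lift h6 q rfl L [] hL trivial rfl rfl

end Cov

end Pool.Agent.helper66.LT
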