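import Pool.Agent.helper66.LT.Gal

set_option autoImplicit false

/-!
# The group of lifts, and approximation of an action by cocompact actions (module LT-M2)
-/

namespace Pool.Agent.helper66.LT

open Pool.Agent.helper34 Pool.Agent.helper36.LT

/-- an invariant chamber system on the `G`-set `B` -/
structure GSys (G S B : Type) [Group G] [MulAction G B] where
  toS : Sys S B
  inv : toS.Inv G

variable {S B : Type} {G : Type} [Group G] [MulAction G B]

/-- the image of a gallery under a group element -/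
abbrev ga (g : G) (l : List (Set S × B)) : List (Set S × B) := gmap (g • ·) l

theorem ga_one (l : List (Set S × B)) : ga (1 : G) l = l := by simp [gmap]

theorem ga_mul (g h : G) (l : List (Set S × B)) : ga (g * h) l = ga g (ga h l) := by
  simp [gmap, mul_smul]

theorem ga_append (g : G) (l m : List (Set S × B)) : ga g (l ++ m) = ga g l ++ ga g m :=
  gmap_append _ _ _

theorem fin_ga (g : G) (b : B) (l : List (Set S × B)) : fin (g • b) (ga g l) = g • fin b l :=
  fin_gmap (g • ·) b l

theorem GSys.isGal (A : GSys G S B) (g : G) {b : B} {l : List (Set S × B)}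
    (h : IsGal A.toS b l) : IsGal A.toS (g • b) (ga g l) :=
  gmap_isGal (g • ·) (fun _ _ _ _ h => A.inv _ _ _ _ h) h

theorem GSys.hom (A : GSys G S B) (g : G) {b : B} {l m : List (Set S × B)}
    (h : Hom A.toS b l m) : Hom A.toS (g • b) (ga g l) (ga g m) :=
  gmap_hom (g • ·) (fun _ _ _ _ h => A.inv _ _ _ _ h) h

/-- a group element `g` with a gallery from the base chamber `x` to `g • x` -/
structure PreLift (A : GSys G S B) (x : B) where
  g : G
  l : List (Set S × B)
  path : IsGal A.toS x l
  fin : fin x l = g • x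

namespace PreLift

variable {A : GSys G S B} {x : B}

theorem ext' {p q : PreLift A x} (h1 : p.g = q.g) (h2 : p.l = q.l) : p = q := by
  cases p
  cases q
  subst h1
  subst h2
  rfl

instance : Monoid (PreLift A x) where
  mul p q := ⟨p.g * q.g, p.l ++ ga p.g q.l, by
    rw [isGal_append]
    refine ⟨p.path, ?_⟩
    rw [p.fin]
    exact A.isGal _ q.path, by
    rw [fin_append, p.fin, fin_ga, q.fin, mul_smul]⟩
  one := ⟨1, [], trivial, (one_smul G x).symm⟩
  mul_assoc p q r := ext' (mul_assoc _ _ _) (by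
    change (p.l ++ ga p.g q.l) ++ ga (p.g * q.g) r.l = p.l ++ ga p.g (q.l ++ ga q.g r.l)
    rw [ga_mul, ga_append, List.append_assoc])
  one_mul p := ext' (one_mul _) (by
    change [] ++ ga (1 : G) p.l = p.l
    rw [ga_one]
    rfl)
  mul_one p := ext' (mul_one _) (by
    change p.l ++ ga p.g [] = p.l
    simp)

@[simp] theorem mul_g (p q : PreLift A x) : (p * q).g = p.g * q.g := rfl

@[simp] theorem mul_l (p q : PreLift A x) : (p * q).l = p.l ++ ga p.g q.l := rfl

@[simp] theorem one_g : (1 : PreLift A x).g = 1 := rfl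

@[simp] theorem one_l : (1 : PreLift A x).l = [] := rfl

end PreLift

/-- equality in the group and homotopy of the galleries -/
def liftCon (A : GSys G S B) (x : B) : Con (PreLift A x) where
  r p q := p.g = q.g ∧ Hom A.toS x p.l q.l
  iseqv := ⟨fun _ => ⟨rfl, Hom.refl _ _⟩, fun h => ⟨h.1.symm, Hom.symm _ _ _ h.2⟩,
    fun h1 h2 => ⟨h1.1.trans h2.1, Hom.trans _ _ _ _ h1.2 h2.2⟩⟩
  mul' := by
    rintro p p' q q' ⟨h1, h2⟩ ⟨h3, h4⟩
    refine ⟨by simp [h1, h3], ?_⟩
    simp only [PreLift.mul_l]
    refine Hom.trans _ _ _ _ (hom_append_right h2 _) ?_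
    apply hom_append_left
    rw [p'.fin, h1]
    exact A.hom _ h4

/-- the group of lifts -/
def Lifts (A : GSys G S B) (x : B) : Type := (liftCon A x).Quotient

namespace Lifts

variable {A : GSys G S B} {x : B}

noncomputable instance : Monoid (Lifts A x) := inferInstanceAs (Monoid (liftCon A x).Quotient)

/-- the class of a lift -/
def mk (p : PreLift A x) : Lifts A x := ((p : PreLift A x) : (liftCon A x).Quotient)

theorem mk_mul (p q : PreLift A x) : mk (p * q) = mk p * mk q := rfl

theorem mk_one : mk (1 : PreLift A x) = 1 := rfl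

theorem mk_eq {p q : PreLift A x} : mk p = mk q ↔ p.g = q.g ∧ Hom A.toS x p.l q.l :=
  (liftCon A x).eq

theorem ind {P : Lifts A x → Prop} (h : ∀ p, P (mk p)) (q : Lifts A x) : P q :=
  Quotient.ind h q

/-- the inverse -/
def preInv (p : PreLift A x) : PreLift A x :=
  ⟨p.g⁻¹, ga p.g⁻¹ (grev x p.l), by
    have h1 := isGal_grev A.toS x p.l p.path
    rw [p.fin] at h1
    have h2 := A.isGal p.g⁻¹ h1
    rwa [inv_smul_smul] at h2, by
    have h1 := fin_grev x p.l
    rw [p.fin] at h1
    have h2 := fin_ga p.g⁻¹ (p.g • x) (grev x p.l)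
    rw [inv_smul_smul, h1] at h2
    exact h2⟩

theorem preInv_mul (p : PreLift A x) : mk (preInv p) * mk p = 1 := by
  rw [← mk_mul, ← mk_one, mk_eq]
  refine ⟨by simp [preInv], ?_⟩
  simp only [PreLift.mul_l, preInv, PreLift.one_l, ← ga_append]
  have h1 := hom_grev' A.toS x p.l p.path
  rw [p.fin] at h1
  have h2 := A.hom p.g⁻¹ h1
  rw [inv_smul_smul] at h2
  simpa using h2

noncomputable instance : Group (Lifts A x) :=
  { (inferInstance : Monoid (Lifts A x)) with
    inv := fun q => Classical.choose (show ∃ r : Lifts A x, r * q = 1 from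
      ind (P := fun q => ∃ r : Lifts A x, r * q = 1) (fun p => ⟨mk (preInv p), preInv_mul p⟩) q)
    inv_mul_cancel := fun q => Classical.choose_spec (show ∃ r : Lifts A x, r * q = 1 from
      ind (P := fun q => ∃ r : Lifts A x, r * q = 1) (fun p => ⟨mk (preInv p), preInv_mul p⟩) q) }

/-- the projection to `G` -/
noncomputable def proj (A : GSys G S B) (x : B) : Lifts A x →* G :=
  (liftCon A x).lift ⟨⟨fun p => p.g, rfl⟩, fun _ _ => rfl⟩ (fun _ _ h => h.1)

@[simp] theorem proj_mk (p : PreLift A x) : proj A x (mk p) = p.g := rfl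

/-- the action of a lift on classes of galleries -/
def actP (p : PreLift A x) (q : PClass A.toS x) : PClass A.toS x :=
  Quotient.map (sa := hSetoid A.toS x) (sb := hSetoid A.toS x)
    (fun m => p.l ++ ga p.g m)
    (fun m m' h => by
      apply hom_append_left
      rw [p.fin]
      exact A.hom _ (show Hom A.toS x m m' from h)) q

@[simp] theorem actP_mk (p : PreLift A x) (m : List (Set S × B)) :
    actP p (PClass.mk A.toS x m) = PClass.mk A.toS x (p.l ++ ga p.g m) := rfl

theorem actP_congr {p p' : PreLift A x} (h : p.g = p'.g ∧ Hom A.toS x p.l p'.l)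
    (q : PClass A.toS x) : actP p q = actP p' q := by
  induction q using PClass.ind with
  | h m =>
    rw [actP_mk, actP_mk, PClass.mk_eq, h.1]
    exact hom_append_right h.2 _

theorem ep_actP (p : PreLift A x) (q : PClass A.toS x) : (actP p q).ep = p.g • q.ep := by
  induction q using PClass.ind with
  | h m =>
    rw [actP_mk, PClass.ep_mk, fin_append, p.fin, fin_ga]
    rfl

theorem actP_app (p : PreLift A x) (q : PClass A.toS x) (m : List (Set S × B)) :
    actP p (q.app m) = (actP p q).app (ga p.g m) := by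
  induction q using PClass.ind with
  | h l => simp

theorem valid_actP (p : PreLift A x) (q : PClass A.toS x) (hq : q.valid) : (actP p q).valid := by
  induction q using PClass.ind with
  | h m =>
    rw [actP_mk, PClass.valid_mk, isGal_append]
    refine ⟨p.path, ?_⟩
    rw [p.fin]
    exact A.isGal _ hq

/-- the action on the universal covering, as a function -/
noncomputable def act (p : Lifts A x) (q : Cov A.toS x) : Cov A.toS x :=
  Quotient.lift (s := (liftCon A x).toSetoid)
    (fun p : PreLift A x => (⟨actP p q.1, valid_actP p q.1 q.2⟩ : Cov A.toS x))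
    (fun _ _ h => Subtype.ext (actP_congr h q.1)) p

theorem act_mk (p : PreLift A x) (q : Cov A.toS x) : (act (mk p) q).1 = actP p q.1 := rfl

noncomputable instance : MulAction (Lifts A x) (Cov A.toS x) where
  smul := act
  one_smul q := by
    apply Subtype.ext
    change actP 1 q.1 = q.1
    generalize q.1 = r
    induction r using PClass.ind with
    | h m => simp [ga_one]
  mul_smul p p' q := by
    induction p using ind with
    | h p =>
      induction p' using ind with
      | h p' =>
        apply Subtype.ext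
        change actP (p * p') q.1 = actP p (actP p' q.1)
        generalize q.1 = r
        induction r using PClass.ind with
        | h m =>
          simp only [actP_mk, PreLift.mul_l, PreLift.mul_g, ga_append, List.append_assoc, ga_mul]

theorem smul_def (p : PreLift A x) (q : Cov A.toS x) : (mk p • q).1 = actP p q.1 := rfl

theorem ep_smul (p : Lifts A x) (q : Cov A.toS x) : (p • q).ep = proj A x p • q.ep := by
  induction p using ind with
  | h p => exact ep_actP p q.1

theorem smul_app (p : Lifts A x) (q : Cov A.toS x) (m : List (Set S × B)) (r : Cov A.toS x)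
    (h : r.1 = q.1.app m) : (p • r).1 = (p • q).1.app (ga (proj A x p) m) := by
  induction p using ind with
  | h p =>
    rw [smul_def, smul_def, h, actP_app]
    rfl

theorem inv_cover : (Cov.sys A.toS x).Inv (Lifts A x) := by
  intro p T q r h
  refine ⟨?_, ?_⟩
  · rw [ep_smul, ep_smul]
    exact A.inv _ _ _ _ h.1
  · rw [smul_app p q [(T, r.ep)] r h.2, ep_smul]
    rfl

/-- the stabilisers of the action on the covering inject into stabilisers in `G` -/
theorem stab_inj (q : Cov A.toS x) (p : Lifts A x) (h : p • q = q) (hp : proj A x p = 1) :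
    p = 1 := by
  induction p using ind with
  | h p =>
    rw [← mk_one, mk_eq]
    refine ⟨hp, ?_⟩
    obtain ⟨q, hq⟩ := q
    induction q using PClass.ind with
    | h m =>
      have h1 : actP p (PClass.mk A.toS x m) = PClass.mk A.toS x m := congrArg Subtype.val h
      rw [actP_mk, PClass.mk_eq] at h1
      have hg : p.g = 1 := hp
      rw [hg, ga_one] at h1
      refine hom_cancel_right (X := A.toS) (m := []) m ?_ ?_ h1
      · rw [p.fin, hg, one_smul]
        rfl
      · rw [p.fin, hg, one_smul]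
        exact hq

theorem injStab {Q : Type} [Group Q] (f : G →* Q) (hf : A.toS.InjStab f) :
    (Cov.sys A.toS x).InjStab (f.comp (proj A x)) := by
  intro T q hT p hp h1
  obtain ⟨h2, h3⟩ := hp
  have h4 : proj A x p = 1 := by
    refine hf T q.ep hT _ ?_ h1
    rw [ep_smul] at h2
    exact h2
  refine stab_inj q p ?_ h4
  have h5 : q.ep = (p • q).ep := by rw [ep_smul, h4, one_smul]
  exact (Cov.step_eq hT h3 h5).symm

/-- transitivity on fibres -/
theorem exists_smul (q r : Cov A.toS x) (g : G) (h : r.ep = g • q.ep) :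
    ∃ p : Lifts A x, p • q = r := by
  obtain ⟨q, hq⟩ := q
  obtain ⟨r, hr⟩ := r
  induction q using PClass.ind with
  | h l =>
    induction r using PClass.ind with
    | h m =>
      have h' : fin x m = g • fin x l := h
      have h1 := isGal_grev A.toS x l hq
      have h2 := A.isGal g h1
      refine ⟨mk ⟨g, m ++ ga g (grev x l), ?_, ?_⟩, ?_⟩
      · rw [isGal_append, h']
        exact ⟨hr, h2⟩
      · rw [fin_append, h', fin_ga, fin_grev]
      · apply Subtype.ext
        change PClass.mk A.toS x ((m ++ ga g (grev x l)) ++ ga g l) = PClass.mk A.toS x m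
        rw [PClass.mk_eq, List.append_assoc, ← ga_append]
        conv_rhs => rw [← List.append_nil m]
        apply hom_append_left
        rw [h']
        have h3 := A.hom g (hom_grev' A.toS x l hq)
        simpa using h3

/-- finitely many orbits -/
theorem finOrb (F : Set B) (hF : F.Finite)
    (h : ∀ q : Cov A.toS x, ∃ g : G, g • q.ep ∈ F) : FinOrb (Lifts A x) (Cov A.toS x) := by
  classical
  let pick : B → Cov A.toS x := fun c =>
    if h : ∃ q : Cov A.toS x, ∃ g : G, g • q.ep = c then h.choose else Cov.base A.toS x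
  refine ⟨pick '' F, hF.image _, ?_⟩
  intro q
  obtain ⟨g, hg⟩ := h q
  have h1 : ∃ q' : Cov A.toS x, ∃ g' : G, g' • q'.ep = g • q.ep := ⟨q, g, rfl⟩
  have h2 : pick (g • q.ep) = h1.choose := dif_pos h1
  obtain ⟨g', hg'⟩ := h1.choose_spec
  obtain ⟨p, hp⟩ := exists_smul q h1.choose (g'⁻¹ * g) (by
    rw [mul_smul]
    exact eq_inv_smul_iff.2 hg')
  exact ⟨p, g • q.ep, hg, by rw [h2, hp]⟩

end Lifts

/-! ## restriction of a chamber system -/

/-- the chamber system in which the chambers outside `A` are isolated -/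
def res (X : Sys S B) (A : B → Prop) : Sys S B where
  r T b c := X.r T b c ∧ (b = c ∨ A b ∧ A c)
  refl T b hT := ⟨X.refl _ _ hT, Or.inl rfl⟩
  symm T b c hT h := ⟨X.symm _ _ _ hT h.1, h.2.imp Eq.symm And.symm⟩
  trans T b c d hT h h' := by
    refine ⟨X.trans _ _ _ _ hT h.1 h'.1, ?_⟩
    rcases h.2 with h1 | h1
    · rw [h1]
      exact h'.2
    · rcases h'.2 with h2 | h2
      · rw [← h2]
        exact Or.inr h1
      · exact Or.inr ⟨h1.1, h2.2⟩
  mono T T' b c hs hT hT' h := ⟨X.mono _ _ _ _ hs hT hT' h.1, h.2⟩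
  zero b c h := X.zero _ _ h.1
  two s t b c hst h h' := X.two _ _ _ _ hst h.1 h'.1
  four s t a b c d hst h1 h2 h3 h4 := X.four _ _ _ _ _ _ hst h1.1 h2.1 h3.1 h4.1

theorem res_mono (X : Sys S B) {A A' : B → Prop} (h : ∀ b, A b → A' b) (T : Set S) (b c : B)
    (_ : IsTy T) (hr : (res X A).r T b c) : (res X A').r T b c :=
  ⟨hr.1, hr.2.imp id (fun h1 => ⟨h _ h1.1, h _ h1.2⟩)⟩

theorem res_le (X : Sys S B) (A : B → Prop) (T : Set S) (b c : B)
    (_ : IsTy T) (hr : (res X A).r T b c) : X.r T b c := hr.1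

theorem fin_mem {X : Sys S B} {A : B → Prop} {b : B} (hb : A b) {l : List (Set S × B)}
    (h : IsGal (res X A) b l) : A (fin b l) := by
  induction l generalizing b with
  | nil => exact hb
  | cons x l ih =>
    obtain ⟨_, h2, h3⟩ := h
    refine ih ?_ h3
    rcases h2.2 with h4 | h4
    · rwa [← h4]
    · exact h4.2

theorem isGal_finite {X : Sys S B} {b : B} {l : List (Set S × B)} (h : IsGal X b l) :
    ∃ F : Finset B, ∀ A : B → Prop, (∀ c ∈ F, A c) → IsGal (res X A) b l := by
  classical
  induction l generalizing b with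
  | nil => exact ⟨∅, fun _ _ => trivial⟩
  | cons x l ih =>
    obtain ⟨h1, h2, h3⟩ := h
    obtain ⟨F, hF⟩ := ih h3
    refine ⟨insert b (insert x.2 F), fun A hA => ⟨h1, ⟨h2, Or.inr ⟨?_, ?_⟩⟩, hF A ?_⟩⟩
    · exact hA _ (by simp)
    · exact hA _ (by simp)
    · intro c hc
      exact hA _ (by simp [hc])

theorem hom_finite {X : Sys S B} {b : B} {l m : List (Set S × B)} (h : Hom X b l m) :
    ∃ F : Finset B, ∀ A : B → Prop, (∀ c ∈ F, A c) → Hom (res X A) b l m := by
  classical
  induction h with
  | refl => exact ⟨∅, fun _ _ => Hom.refl _ _⟩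
  | symm _ _ _ _ ih =>
    obtain ⟨F, hF⟩ := ih
    exact ⟨F, fun A hA => Hom.symm _ _ _ (hF A hA)⟩
  | trans _ _ _ _ _ _ ih1 ih2 =>
    obtain ⟨F, hF⟩ := ih1
    obtain ⟨F', hF'⟩ := ih2
    exact ⟨F ∪ F', fun A hA => Hom.trans _ _ _ _ (hF A fun c hc => hA c (by simp [hc]))
      (hF' A fun c hc => hA c (by simp [hc]))⟩
  | cons _ _ _ _ _ ih =>
    obtain ⟨F, hF⟩ := ih
    exact ⟨F, fun A hA => Hom.cons _ _ _ _ (hF A hA)⟩
  | triv b T l h => exact ⟨∅, fun _ _ => Hom.triv _ _ _ h⟩
  | comp b c d T l h h1 h2 =>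
    refine ⟨{b, c, d}, fun A hA => Hom.comp _ _ _ _ _ h ⟨h1, Or.inr ⟨?_, ?_⟩⟩ ⟨h2, Or.inr ⟨?_, ?_⟩⟩⟩
    all_goals exact hA _ (by simp)
  | sub b c T T' l h h' hs h1 =>
    refine ⟨{b, c}, fun A hA => Hom.sub _ _ _ _ _ h h' hs ⟨h1, Or.inr ⟨?_, ?_⟩⟩⟩
    all_goals exact hA _ (by simp)

/-- the chambers in the orbits of `b0` and of the elements of a finite set -/
def orb (G : Type) {B : Type} [Group G] [MulAction G B] (b0 : B) (F : Finset B) (b : B) : Prop :=
  ∃ g : G, g • b = b0 ∨ g • b ∈ F

theorem orb_smul (b0 : B) (F : Finset B) (h : G) {b : B} (hb : orb G b0 F b) :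
    orb G b0 F (h • b) := by
  obtain ⟨g, hg⟩ := hb
  refine ⟨g * h⁻¹, ?_⟩
  rwa [mul_smul, inv_smul_smul]

theorem orb_base (b0 : B) (F : Finset B) : orb G b0 F b0 := ⟨1, Or.inl (one_smul _ _)⟩

theorem orb_mem (b0 : B) (F : Finset B) {b : B} (hb : b ∈ F) : orb G b0 F b :=
  ⟨1, Or.inr (by rwa [one_smul])⟩

theorem orb_mono (b0 : B) {F F' : Finset B} (h : F ⊆ F') (b : B) (hb : orb G b0 F b) :
    orb G b0 F' b := by
  obtain ⟨g, hg⟩ := hb
  exact ⟨g, hg.imp id (fun h' => h h')⟩

/-- the restriction to finitely many orbits -/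
def gres (X : Sys S B) (hX : X.Inv G) (b0 : B) (F : Finset B) : GSys G S B where
  toS := res X (orb G b0 F)
  inv g T b c h := ⟨hX g T b c h.1, h.2.imp (fun h1 => by rw [h1])
    (fun h1 => ⟨orb_smul b0 F g h1.1, orb_smul b0 F g h1.2⟩)⟩

/-- the transition maps -/
noncomputable def transM {A A' : GSys G S B}
    (h : ∀ T b c, IsTy T → A.toS.r T b c → A'.toS.r T b c) (x : B) : Lifts A x →* Lifts A' x :=
  (liftCon A x).lift
    { toFun := fun p => Lifts.mk ⟨p.g, p.l, isGal_mono h p.path, p.fin⟩
      map_one' := rfl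
      map_mul' := fun _ _ => rfl }
    (fun _ _ h' => Lifts.mk_eq.2 ⟨h'.1, hom_mono h h'.2⟩)

/-- approximation by cocompact actions, general form -/
theorem approx' {P : ∀ (G : Type) [Group G], Prop} (hP : Closed P) {S : Type} (G B : Type)
    [Group G] [MulAction G B] (X : Sys S B) (hX : X.SC) (hG : X.Inv G)
    (hco : ∀ (F : Finset B) (G' B' : Type) [Group G'] [MulAction G' B'] (X' : Sys S B')
      (p : G' →* G) (q : B' → B), X'.SC → X'.Inv G' → FinOrb G' B' →
      (∀ b' : B', ∃ g : G, g • q b' ∈ F) →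
      (∀ (T : Set S) (b' : B') (g' : G'), IsTy T → g' ∈ X'.stab G' T b' →
        p g' ∈ X.stab G T (q b') ∧ (p g' = 1 → g' = 1)) → P G') : P G := by
  classical
  obtain ⟨b0⟩ := hX.1
  have hle : ∀ {F F' : Finset B}, F ⊆ F' → ∀ T b c, IsTy T →
      (gres X hG b0 F).toS.r T b c → (gres X hG b0 F').toS.r T b c :=
    fun h T b c hT hr => res_mono X (orb_mono (G := G) b0 h) T b c hT hr
  refine hP.colim (Finset B) (fun F => Lifts (gres X hG b0 F) b0)
    (fun F F' h => transM (hle h) b0) G
    (fun F => Lifts.proj (gres X hG b0 F) b0) ?_ ?_ ?_ ?_ ?_ ?_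
  · intro F y
    induction y using Lifts.ind with
    | h p => rfl
  · intro i j k hij hjk y
    induction y using Lifts.ind with
    | h p => rfl
  · intro i j hij y
    induction y using Lifts.ind with
    | h p => rfl
  · intro g
    obtain ⟨l, hl, hl'⟩ := hX.2.1 b0 (g • b0)
    obtain ⟨F, hF⟩ := isGal_finite hl
    exact ⟨F, Lifts.mk ⟨g, l, hF _ (fun c hc => orb_mem (G := G) b0 F hc), hl'⟩, rfl⟩
  · intro F y hy
    induction y using Lifts.ind with
    | h p =>
      have hg : p.g = 1 := hy
      have h1 : fin b0 p.l = b0 := by rw [p.fin, hg, one_smul]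
      have h2 := hX.2.2 b0 p.l (isGal_mono (res_le X _) p.path) h1
      obtain ⟨F', hF'⟩ := hom_finite h2
      refine ⟨F ∪ F', Finset.subset_union_left, ?_⟩
      refine Lifts.mk_eq.2 ⟨hg, hF' _ ?_⟩
      intro c hc
      exact orb_mem (G := G) b0 _ (Finset.mem_union_right _ hc)
  · intro F
    have horb : ∀ q : Cov (gres X hG b0 F).toS b0, ∃ g : G, g • q.ep ∈ insert b0 F := by
      rintro ⟨q, hq⟩
      induction q using PClass.ind with
      | h l =>
        have h1 : IsGal (res X (orb G b0 F)) b0 l := hq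
        obtain ⟨g, hg⟩ := fin_mem (orb_base (G := G) b0 F) h1
        exact ⟨g, Finset.mem_insert.2 hg⟩
    refine hco (insert b0 F) (Lifts (gres X hG b0 F) b0) (Cov (gres X hG b0 F).toS b0)
      (Cov.sys (gres X hG b0 F).toS b0) (Lifts.proj _ _) Cov.ep (Cov.sc _ _)
      Lifts.inv_cover ?_ horb ?_
    · refine Lifts.finOrb ((insert b0 F : Finset B) : Set B) (Finset.finite_toSet _) ?_
      intro q
      obtain ⟨g, hg⟩ := horb q
      exact ⟨g, Finset.mem_coe.2 hg⟩
    · intro T b' g' hT hg'
      obtain ⟨h2, h3⟩ := hg'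
      rw [Lifts.ep_smul] at h2
      refine ⟨h2.1, fun h4 => Lifts.stab_inj b' g' ?_ h4⟩
      have h5 : b'.ep = (g' • b').ep := by rw [Lifts.ep_smul, h4, one_smul]
      exact (Cov.step_eq hT h3 h5).symm

theorem approx {P : ∀ (G : Type) [Group G], Prop} (hP : Closed P) (S Q : Type) [Group Q]
    (hco : ∀ (G B : Type) [Group G] [MulAction G B] (f : G →* Q) (X : Sys S B), X.SC → X.Inv G →
      X.InjStab f → FinOrb G B → P G)
    (G B : Type) [Group G] [MulAction G B] (f : G →* Q) (X : Sys S B) (hX : X.SC) (hG : X.Inv G)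
    (hf : X.InjStab f) : P G := by
  refine approx' hP G B X hX hG ?_
  intro F G' B' _ _ X' p q h1 h2 h3 _ h5
  refine hco G' B' (f.comp p) X' h1 h2 ?_ h3
  intro T b' hT g' hg' hfg
  obtain ⟨h6, h7⟩ := h5 T b' g' hT hg'
  exact h7 (hf T (q b') hT (p g') h6 hfg)

end Pool.Agent.helper66.LT
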